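import Pool.Agent.Helper3_PPE.Stmts

/-!
HXX: the height inequality outside a plane curve.
-/

set_option autoImplicit false

universe u

namespace Pool.Agent.PPE.H32

open MvPolynomial PGH PPX PPZ Pool.Agent.PPE

/-- HXX. -/
theorem hxx (K : ℕ) (fam : FamStmt.{u} K) (nof : NofStmt.{u} K) : HxxStmt.{u} K := by
  intro hK
  obtain ⟨N₀, h20, hnof⟩ := nof
  refine ⟨N₀, h20, ?_⟩
  intro k _ _ _ N₁ N₂ a b h1 h2 ha hb
  by_contra hcon
  push Not at hcon
  obtain ⟨T, -⟩ := fam a b Set.univ (by
    intro F hF
    have h := hcon F hF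
    unfold ExcA at h
    push Not at h
    obtain ⟨E, hEF, hEA, hE0, hEFF, D, cp, sc, bd, hker, hbp, x, z, hdx, hdz, hpat, hF0, hbad⟩ := h
    let C : BC K a b :=
      { E := E
        D := D
        cp := cp
        sc := sc
        bd := bd
        x := x
        z := z
        ker := hker
        bp := hbp
        dx := hdx
        dz := hdz
        pat := hpat
        hK := hK
        bad := hbad }
    exact ⟨C, Set.mem_univ _, hF0⟩)
  exact hnof a b h1 h2 ha hb T

end Pool.Agent.PPE.H32
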