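import Pool.Agent.Helper3_PPE.Stmts

/-!
RTA: the orders of `φ` are given by residues.
-/

set_option autoImplicit false

universe u

namespace Pool.Agent.PPE.H32

open MvPolynomial PGH PPX PPZ Pool.Agent.PPE

section

variable {K : ℕ} {k : Type u} [Field k] {N₁ N₂ : ℕ} {a : Fin N₁ → k} {b : Fin N₂ → k}

/-- the derivation of a constant -/
theorem D_const (C : BC K a b) (c : k) : C.D (algebraMap k C.E c) = 0 := (C.ker _).mpr ⟨c, rfl⟩

/-- logarithmic derivative of a product -/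
theorem logder_prod {E : Type*} [Field E] (D : Derivation ℤ E E) {ι : Type*} (s : Finset ι)
    (y : ι → E) (hy : ∀ i ∈ s, y i ≠ 0) :
    D (∏ i ∈ s, y i) = (∏ i ∈ s, y i) * ∑ i ∈ s, D (y i) / y i := by
  classical
  induction s using Finset.induction_on with
  | empty => simp
  | insert i s hi ih =>
    rw [Finset.prod_insert hi, Finset.sum_insert hi, D.leibniz, smul_eq_mul, smul_eq_mul,
      ih (fun j hj => hy j (Finset.mem_insert_of_mem hj))]
    have h0 : y i ≠ 0 := hy i (Finset.mem_insert_self i s)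
    field_simp
    ring

/-- logarithmic derivative of `φ` -/
theorem logder_ph (C : BC K a b) (hx : ∀ c : k, algebraMap k C.E c ≠ C.x)
    (hz : ∀ c : k, algebraMap k C.E c ≠ C.z) (hth : C.th ≠ 0) :
    C.ph ≠ 0 ∧ C.D C.ph / C.ph = C.la * C.D C.z := by
  have hx' : ∀ c : k, C.x - algebraMap k C.E c ≠ 0 := fun c => sub_ne_zero.mpr (hx c).symm
  have hz' : ∀ c : k, C.z - algebraMap k C.E c ≠ 0 := fun c => sub_ne_zero.mpr (hz c).symm
  have hf : C.f ≠ 0 := Finset.prod_ne_zero_iff.mpr fun i _ => hx' _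
  have hg : C.g ≠ 0 := Finset.prod_ne_zero_iff.mpr fun j _ => hz' _
  have hdz : C.D C.z ≠ 0 := C.dz
  have hDf : C.D C.f = C.f * ∑ i, C.D C.x / (C.x - algebraMap k C.E (a i)) := by
    have h := logder_prod C.D Finset.univ (fun i => C.x - algebraMap k C.E (a i))
      (fun i _ => hx' _)
    simp only [map_sub, D_const, sub_zero] at h
    exact h
  have hDg : C.D C.g = C.g * ∑ j, C.D C.z / (C.z - algebraMap k C.E (b j)) := by
    have h := logder_prod C.D Finset.univ (fun j => C.z - algebraMap k C.E (b j))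
      (fun j _ => hz' _)
    simp only [map_sub, D_const, sub_zero] at h
    exact h
  have hph : C.ph ≠ 0 := div_ne_zero (mul_ne_zero hth (pow_ne_zero 2 hg)) (pow_ne_zero 2 hf)
  refine ⟨hph, ?_⟩
  have hla : C.la * C.D C.z = C.D C.th / C.th -
      2 * (∑ i, C.D C.x / (C.x - algebraMap k C.E (a i)) -
        ∑ j, C.D C.z / (C.z - algebraMap k C.E (b j))) := by
    change (C.D (PPX.th C.D C.x C.z) / PPX.th C.D C.x C.z - 2 * (∑ i, C.D C.x /
      (C.x - algebraMap k C.E (a i)) - ∑ j, C.D C.z / (C.z - algebraMap k C.E (b j)))) / C.D C.z *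
      C.D C.z = _
    rw [div_mul_cancel₀ _ hdz]
    rfl
  rw [hla]
  have h1 : C.ph * C.f ^ 2 = C.th * C.g ^ 2 := by
    change C.th * C.g ^ 2 / C.f ^ 2 * C.f ^ 2 = _
    rw [div_mul_cancel₀ _ (pow_ne_zero 2 hf)]
  have h2 := congrArg C.D h1
  rw [C.D.leibniz, C.D.leibniz, C.D.leibniz_pow, C.D.leibniz_pow, hDf, hDg] at h2
  simp only [smul_eq_mul, nsmul_eq_mul, Nat.cast_ofNat, pow_one, Nat.add_one_sub_one] at h2
  generalize (∑ i, C.D C.x / (C.x - algebraMap k C.E (a i))) = sf at *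
  generalize (∑ j, C.D C.z / (C.z - algebraMap k C.E (b j))) = sg at *
  rw [div_eq_iff hph]
  have hf2 : C.f ^ 2 ≠ 0 := pow_ne_zero 2 hf
  apply mul_left_cancel₀ hf2
  have h3 : C.f ^ 2 * C.D C.ph = C.th * (2 * (C.g * (C.g * sg))) + C.g ^ 2 * C.D C.th -
      C.ph * (2 * (C.f * (C.f * sf))) := by
    linear_combination h2
  rw [h3]
  have h4 : C.f ^ 2 * ((C.D C.th / C.th - 2 * (sf - sg)) * C.ph) =
      (C.D C.th / C.th) * (C.ph * C.f ^ 2) - 2 * (sf - sg) * (C.ph * C.f ^ 2) := by ring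
  rw [h4, h1]
  have h5 : C.D C.th / C.th * (C.th * C.g ^ 2) = C.D C.th * C.g ^ 2 := by
    field_simp
  rw [h5]
  linear_combination (-2 * sf) * h1

end

/-- RTA. -/
theorem rta (K : ℕ) (nod : NodStmt.{u} K) (tsx : TsxStmt.{u} K) (pfd : PfdStmt.{u})
    (lre : LreStmt.{u}) : RtaStmt.{u} K := by
  classical
  intro q hq
  obtain ⟨N₀, hN⟩ := tsx q hq
  refine ⟨N₀, ?_⟩
  intro k _ _ _ N₁ N₂ a b h1 h2 ha hb T
  obtain ⟨A, B, A', B', s₁, s₂, hB, hB', hs₁, hs₂, hev⟩ := hN a b h1 h2 ha hb T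
  obtain ⟨r₁, U₁, V₁, hr₁⟩ := pfd A B hB s₁ hs₁
  obtain ⟨r₂, U₂, V₂, hr₂⟩ := pfd A' B' hB' s₂ hs₂
  refine ⟨s₁, s₂, r₁, r₂, ?_⟩
  filter_upwards [hev] with i hi
  obtain ⟨hla, hsm⟩ := hi
  refine ⟨hsm, ?_⟩
  generalize hC : T.C i = C at *
  obtain ⟨-, -, -, -, -, -, -, -, -, hxz, hth⟩ := nod a b ha hb C
  have hx : ∀ c : k, algebraMap k C.E c ≠ C.x := fun c => (hxz c).1
  have hz : ∀ c : k, algebraMap k C.E c ≠ C.z := fun c => (hxz c).2
  obtain ⟨hph, hlog⟩ := logder_ph C hx hz hth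
  have hDc := D_const C
  have e1 := hr₁ C.D hDc C.x hx
  have e2 := hr₂ C.D hDc C.z hz
  have hthz : C.th * C.D C.z = C.D C.x := div_mul_cancel₀ _ C.dz
  let y : Option (Fin s₂.card ⊕ Fin s₁.card) → C.E := fun o =>
    match o with
    | none => C.ph
    | some (Sum.inl l) => C.z - algebraMap k C.E (s₂.equivFin.symm l : k)
    | some (Sum.inr l) => C.x - algebraMap k C.E (s₁.equivFin.symm l : k)
  let m : Option (Fin s₂.card ⊕ Fin s₁.card) → k := fun o =>
    match o with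
    | none => 1
    | some (Sum.inl l) => - r₂ (s₂.equivFin.symm l : k)
    | some (Sum.inr l) => r₁ (s₁.equivFin.symm l : k)
  have hsum2 : ∀ {M : Type u} [AddCommMonoid M] (g : k → M),
      ∑ l : Fin s₂.card, g (s₂.equivFin.symm l : k) = ∑ c ∈ s₂, g c := by
    intro M _ g
    rw [← Finset.sum_coe_sort s₂ g]
    exact Equiv.sum_comp s₂.equivFin.symm (fun c : s₂ => g c)
  have hsum1 : ∀ {M : Type u} [AddCommMonoid M] (g : k → M),
      ∑ l : Fin s₁.card, g (s₁.equivFin.symm l : k) = ∑ c ∈ s₁, g c := by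
    intro M _ g
    rw [← Finset.sum_coe_sort s₁ g]
    exact Equiv.sum_comp s₁.equivFin.symm (fun c : s₁ => g c)
  have key := lre C.D C.ker Finset.univ y m
    (C.D (Polynomial.aeval C.z U₂ / Polynomial.aeval C.z V₂) |> fun _ =>
      (Polynomial.aeval C.z U₂ / Polynomial.aeval C.z V₂ -
        Polynomial.aeval C.x U₁ / Polynomial.aeval C.x V₁)) ?_ ?_
  · intro P
    have h := key P
    rw [Fintype.sum_option, Fintype.sum_sum_type] at h
    simp only [y, m] at h
    rw [one_mul] at h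
    have e3 : ∑ l : Fin s₂.card, -r₂ (s₂.equivFin.symm l : k) *
        ((P.ord (C.z - algebraMap k C.E (s₂.equivFin.symm l : k)) : ℤ) : k) =
        - ∑ c ∈ s₂, r₂ c * ((P.ord (C.z - algebraMap k C.E c) : ℤ) : k) := by
      rw [← Finset.sum_neg_distrib]
      rw [← hsum2 (fun c => -(r₂ c * ((P.ord (C.z - algebraMap k C.E c) : ℤ) : k)))]
      exact Finset.sum_congr rfl fun l _ => by ring
    have e4 : ∑ l : Fin s₁.card, r₁ (s₁.equivFin.symm l : k) *
        ((P.ord (C.x - algebraMap k C.E (s₁.equivFin.symm l : k)) : ℤ) : k) =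
        ∑ c ∈ s₁, r₁ c * ((P.ord (C.x - algebraMap k C.E c) : ℤ) : k) :=
      hsum1 (fun c => r₁ c * ((P.ord (C.x - algebraMap k C.E c) : ℤ) : k))
    rw [e3, e4] at h
    linear_combination h
  · rintro (_ | l | l) _
    · exact hph
    · exact sub_ne_zero.mpr (hz _).symm
    · exact sub_ne_zero.mpr (hx _).symm
  · rw [Fintype.sum_option, Fintype.sum_sum_type]
    simp only [y, m]
    rw [map_one, one_mul, hlog]
    have e3 : ∑ l : Fin s₂.card, algebraMap k C.E (-r₂ (s₂.equivFin.symm l : k)) *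
        (C.D (C.z - algebraMap k C.E (s₂.equivFin.symm l : k)) /
          (C.z - algebraMap k C.E (s₂.equivFin.symm l : k))) =
        - ∑ c ∈ s₂, algebraMap k C.E (r₂ c) * (C.D C.z / (C.z - algebraMap k C.E c)) := by
      rw [← Finset.sum_neg_distrib]
      rw [← hsum2 (fun c => -(algebraMap k C.E (r₂ c) * (C.D C.z / (C.z - algebraMap k C.E c))))]
      exact Finset.sum_congr rfl fun l _ => by rw [map_sub, hDc, sub_zero, map_neg]; ring
    have e4 : ∑ l : Fin s₁.card, algebraMap k C.E (r₁ (s₁.equivFin.symm l : k)) *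
        (C.D (C.x - algebraMap k C.E (s₁.equivFin.symm l : k)) /
          (C.x - algebraMap k C.E (s₁.equivFin.symm l : k))) =
        ∑ c ∈ s₁, algebraMap k C.E (r₁ c) * (C.D C.x / (C.x - algebraMap k C.E c)) := by
      rw [← hsum1 (fun c => algebraMap k C.E (r₁ c) * (C.D C.x / (C.x - algebraMap k C.E c)))]
      exact Finset.sum_congr rfl fun l _ => by rw [map_sub, hDc, sub_zero]
    rw [e3, e4, map_sub, hla, sub_mul, mul_assoc, hthz, e1, e2]
    ring

end Pool.Agent.PPE.H32
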